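import Pool.Agent.Helper45.U4.St1

/-!
# Project U4, module HNB: neighbours of generators in Hermitian spaces over the field with four elements
-/

set_option autoImplicit false

open Module Classical
open scoped LinearAlgebra.Projectivization

namespace Pool.Agent.Helper72.U4

open Pool.Agent.Helper45.U4 Pool.Agent.Helper53.PB

section

variable {F V : Type} [Field F] [AddCommGroup V] [Module F V]

/-- what is used of the Hermitian form -/
structure HP (P : Polar F V) : Prop where
  om : ∃ ω : F, Om ω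
  c3 : ∀ c : F, c ≠ 0 → c ^ 3 = 1
  add : ∀ x y z, P.f (x + y) z = P.f x z + P.f y z
  smul : ∀ (c : F) x y, P.f (c • x) y = c ^ 2 * P.f x y
  sym : ∀ x y, P.f y x = P.f x y ^ 2
  sg : ∀ x, P.sing x ↔ P.f x x = 0
  val : ∀ x, P.f x x = 0 ∨ P.f x x = 1
  nd : ∀ x, (∀ y, P.f x y = 0) → x = 0

variable {P : Polar F V}

theorem HP.two (h : HP P) (c : F) : c + c = 0 := by
  obtain ⟨ω, hω⟩ := h.om
  exact hω.two c

theorem HP.c4 (h : HP P) (c : F) : c ^ 4 = c := by
  by_cases hc : c = 0
  · rw [hc]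
    norm_num
  · rw [pow_succ, h.c3 c hc, one_mul]

theorem surj_dual (h : HP P) [FiniteDimensional F V] (U : Submodule F V) (g : Dual F U) :
    ∃ y : V, ∀ u : U, P.f y u = g u := by
  obtain ⟨R, hR⟩ : ∃ R : Submodule F (Dual F U), ∀ g, g ∈ R ↔ ∃ y : V, ∀ u : U, P.f y u = g u := by
    refine ⟨{ carrier := {g | ∃ y : V, ∀ u : U, P.f y u = g u}
              zero_mem' := ⟨0, fun u => Polar.zero_left _⟩
              add_mem' := ?_
              smul_mem' := ?_ }, fun g => Iff.rfl⟩
    · rintro a b ⟨y, hy⟩ ⟨z, hz⟩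
      exact ⟨y + z, fun u => by rw [h.add, hy, hz]; rfl⟩
    · rintro c a ⟨y, hy⟩
      refine ⟨c ^ 2 • y, fun u => ?_⟩
      rw [h.smul, ← pow_mul, hy]
      change c ^ 4 * _ = c * a u
      rw [h.c4]
  have h1 : R.dualCoannihilator = ⊥ := by
    rw [eq_bot_iff]
    intro u hu
    rw [Submodule.mem_dualCoannihilator] at hu
    rw [Submodule.mem_bot]
    apply Subtype.ext
    apply h.nd
    intro y
    have h2 := hu ((P.f y).domRestrict U) ((hR _).2 ⟨y, fun u => rfl⟩)
    change P.f y u = 0 at h2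
    rw [h.sym, h2]
    norm_num
  have h3 := Subspace.finrank_add_finrank_dualCoannihilator_eq R
  rw [h1, finrank_bot, add_zero, ← Subspace.dual_finrank_eq] at h3
  have h4 : R = ⊤ := Submodule.eq_top_of_finrank_eq h3
  have h5 : g ∈ R := by
    rw [h4]
    trivial
  exact (hR g).1 h5

theorem perp_self (h : HP P) [FiniteDimensional F V] {U : Submodule F V}
    (hU2 : ∀ x ∈ U, ∀ y ∈ U, P.f x y = 0) {r : ℕ} (hr : finrank F U = r)
    (hV : finrank F V = 2 * r) {y : V} (hy : ∀ u ∈ U, P.f y u = 0) : y ∈ U := by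
  obtain ⟨b⟩ : Nonempty (Basis (Fin (finrank F U)) F U) := ⟨finBasis F U⟩
  obtain ⟨L, hL⟩ : ∃ L : V →ₗ[F] (Fin (finrank F U) → F), ∀ y i, L y i = P.f (b i) y :=
    ⟨LinearMap.pi (fun i => P.f (b i)), fun y i => rfl⟩
  have hsurj : LinearMap.range L = ⊤ := by
    rw [LinearMap.range_eq_top]
    intro g
    obtain ⟨y, hy⟩ := surj_dual h U (b.constr F (fun i => g i ^ 2))
    refine ⟨y, ?_⟩
    ext i
    rw [hL, h.sym, hy, Basis.constr_basis, ← pow_mul]
    exact h.c4 _
  have h1 := LinearMap.finrank_range_add_finrank_ker L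
  rw [hsurj, finrank_top, finrank_fin_fun] at h1
  have h2 : U ≤ LinearMap.ker L := by
    intro x hx
    rw [LinearMap.mem_ker]
    ext i
    rw [hL]
    exact hU2 _ (b i).2 x hx
  have h3 : U = LinearMap.ker L := Submodule.eq_of_le_of_finrank_eq h2 (by omega)
  rw [h3, LinearMap.mem_ker]
  ext i
  rw [hL, h.sym, hy _ (b i).2]
  norm_num

theorem exists_sing (h : HP P) [FiniteDimensional F V] {U : Submodule F V}
    (hU2 : ∀ x ∈ U, ∀ y ∈ U, P.f x y = 0) {g : Dual F U} {u1 : U} (hu1 : g u1 = 1) :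
    ∃ y : V, P.sing y ∧ ∀ u : U, P.f y u = g u := by
  obtain ⟨y, hy⟩ := surj_dual h U g
  rcases h.val y with h0 | h0
  · exact ⟨y, (h.sg y).2 h0, hy⟩
  · obtain ⟨ω, hω⟩ := h.om
    refine ⟨y + ω • (u1 : V), (h.sg _).2 ?_, fun u => ?_⟩
    · have e1 : P.f (u1 : V) y = 1 := by rw [h.sym, hy, hu1, one_pow]
      rw [h.add, map_add, map_add, h.smul, h.smul, map_smul, map_smul, h0, hy, hu1, e1,
        hU2 _ u1.2 _ u1.2, hω.sq]
      have e2 := h.two ω
      have e3 := h.two (1 : F)
      simp only [smul_eq_mul]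
      linear_combination e2 + e3
    · rw [h.add, h.smul, hU2 _ u1.2 _ u.2, hy, mul_zero, add_zero]

theorem nb_of (h : HP P) [FiniteDimensional F V] {r : ℕ} (hV : finrank F V = 2 * r)
    (hgen : ∀ U, P.Gen U → finrank F U = r) {U : Submodule F V} (hU : P.Gen U) :
    Nonempty (Nb P U Bool) := by
  have hUr := hgen U hU
  have hU2 : ∀ x ∈ U, ∀ y ∈ U, P.f x y = 0 := hU.1.2
  have hch : ∀ G : ℙ F (Dual F U), ∃ u1 : U, G.rep u1 = 1 := by
    intro G
    obtain ⟨u, hu⟩ : ∃ u, G.rep u ≠ 0 := by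
      by_contra hcon
      push Not at hcon
      exact G.rep_nonzero (LinearMap.ext hcon)
    refine ⟨(G.rep u)⁻¹ • u, ?_⟩
    rw [map_smul, smul_eq_mul, inv_mul_cancel₀ hu]
  choose e he using hch
  have hch2 : ∀ G : ℙ F (Dual F U), ∃ y : V, P.sing y ∧ ∀ u : U, P.f y u = G.rep u :=
    fun G => exists_sing h hU2 (he G)
  choose w hw1 hw2 using hch2
  obtain ⟨Y, hY⟩ : ∃ Y : Bool × ℙ F (Dual F U) → V,
      ∀ p, Y p = w p.2 + (if p.1 = true then (1 : F) else 0) • (e p.2 : V) := ⟨_, fun _ => rfl⟩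
  have hY2 : ∀ p, ∀ u : U, P.f (Y p) u = p.2.rep u := by
    intro p u
    rw [hY, h.add, h.smul, hU2 _ (e p.2).2 _ u.2, mul_zero, add_zero, hw2]
  have hY1 : ∀ p, P.sing (Y p) := by
    intro p
    have e1 : P.f (e p.2 : V) (w p.2) = 1 := by rw [h.sym, hw2, he, one_pow]
    rw [h.sg, hY, h.add, map_add, map_add, h.smul, h.smul, map_smul, map_smul, hw2, he, e1,
      hU2 _ (e p.2).2 _ (e p.2).2, (h.sg _).1 (hw1 _)]
    have e3 := h.two (1 : F)
    split_ifs
    · simp only [smul_eq_mul]
      linear_combination e3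
    · simp
  have hYU : ∀ p, Y p ∉ U := by
    intro p hp
    apply p.2.rep_nonzero
    ext u
    rw [← hY2, hU2 _ hp _ u.2]
    rfl
  obtain ⟨nb, hnb⟩ : ∃ nb : Bool × ℙ F (Dual F U) → Submodule F V,
    ∀ p, nb p = (LinearMap.ker p.2.rep).map U.subtype ⊔ Submodule.span F {Y p} :=
    ⟨_, fun _ => rfl⟩
  have hmem : ∀ p x, x ∈ nb p ↔ ∃ u : U, p.2.rep u = 0 ∧ ∃ c : F, x = (u : V) + c • Y p := by
    intro p x
    rw [hnb, Submodule.mem_sup]
    constructor
    · rintro ⟨y, ⟨u, hu, rfl⟩, z, hz, rfl⟩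
      obtain ⟨c, rfl⟩ := Submodule.mem_span_singleton.1 hz
      exact ⟨u, hu, c, rfl⟩
    · rintro ⟨u, hu, c, rfl⟩
      exact ⟨u, ⟨u, hu, rfl⟩, c • Y p,
        Submodule.smul_mem _ _ (Submodule.mem_span_singleton_self _), rfl⟩
  have hfx : ∀ p x, x ∈ nb p → x ∉ U → ∃ c : F, c ≠ 0 ∧ ∀ u : U, P.f x u = c * p.2.rep u := by
    intro p x hx hxU
    obtain ⟨u, hu, c, rfl⟩ := (hmem p x).1 hx
    refine ⟨c ^ 2, ?_, ?_⟩
    · intro hc
      have hc0 : c = 0 := by simpa using hc
      apply hxU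
      rw [hc0, zero_smul, add_zero]
      exact u.2
    · intro u'
      rw [h.add, h.smul, hU2 _ u.2 _ u'.2, hY2, zero_add]
  refine ⟨⟨nb, ?_, ?_, ?_, ?_⟩⟩
  · intro p
    have hTS : P.TS (nb p) := by
      rw [hnb]
      apply Polar.TS.sup_span
      · apply hU.1.mono
        rintro _ ⟨u, _, rfl⟩
        exact u.2
      · exact hY1 _
      · rintro _ ⟨u, hu, rfl⟩
        rw [h.sym]
        change P.f (Y p) u ^ 2 = 0
        rw [hY2]
        have hu' : p.2.rep u = 0 := hu
        rw [hu']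
        norm_num
    apply Polar.gen_of_finrank hgen hTS
    have h1 : (LinearMap.ker p.2.rep).map U.subtype ⊓ Submodule.span F {Y p} = ⊥ := by
      rw [eq_bot_iff]
      rintro x ⟨⟨u, hu, rfl⟩, hx⟩
      obtain ⟨c, hc⟩ := Submodule.mem_span_singleton.1 hx
      by_cases hc0 : c = 0
      · rw [hc0, zero_smul] at hc
        rw [← hc]
        exact zero_mem _
      · exfalso
        apply hYU p
        rw [← Submodule.smul_mem_iff U hc0, hc]
        exact u.2
    have h2 := Submodule.finrank_sup_add_finrank_inf_eq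
      ((LinearMap.ker p.2.rep).map U.subtype) (Submodule.span F {Y p})
    have hY0 : Y p ≠ 0 := fun h => hYU p (by rw [h]; exact zero_mem _)
    rw [h1, finrank_bot, finrank_span_singleton hY0, add_zero,
      ← (Submodule.equivMapOfInjective U.subtype (Submodule.injective_subtype U)
        (LinearMap.ker p.2.rep)).finrank_eq] at h2
    have h3 := Module.Dual.finrank_ker_add_one_of_ne_zero p.2.rep_nonzero
    rw [hnb, h2, h3, hUr]
  · intro p x
    rw [hmem]
    constructor
    · rintro ⟨u, hu, c, hc⟩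
      by_cases hc0 : c = 0
      · rw [hc0, zero_smul, add_zero] at hc
        rw [Subtype.ext hc]
        exact hu
      · exfalso
        apply hYU p
        rw [← Submodule.smul_mem_iff U hc0]
        have : c • Y p = x - u := by
          rw [hc]
          abel
        rw [this]
        exact U.sub_mem x.2 u.2
    · intro hx
      exact ⟨x, hx, 0, by simp⟩
  · intro x hx hxU
    have hg : (P.f x).domRestrict U ≠ 0 := by
      intro h0
      apply hU.not_le hx hxU
      intro u hu
      exact LinearMap.congr_fun h0 ⟨u, hu⟩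
    obtain ⟨a, ha⟩ := Projectivization.exists_smul_eq_mk_rep F _ hg
    obtain ⟨G, hG⟩ : ∃ G, G = Projectivization.mk F _ hg := ⟨_, rfl⟩
    rw [← hG] at ha
    have hax : ∀ u : U, P.f ((a : F) ^ 2 • x) u = G.rep u := by
      intro u
      rw [h.smul, ← pow_mul, ← ha]
      change (a : F) ^ 4 * _ = (a : F) * P.f x u
      rw [h.c4]
    have h1 : (a : F) ^ 2 • x - w G ∈ U := by
      apply perp_self h hU2 hUr hV
      intro u hu
      have e1 := h.add ((a : F) ^ 2 • x - w G) (w G) u
      rw [sub_add_cancel] at e1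
      have e2 := hax ⟨u, hu⟩
      have e3 := hw2 G ⟨u, hu⟩
      change P.f _ u = _ at e2 e3
      rw [e2, e3] at e1
      linear_combination -e1
    obtain ⟨v, hv⟩ : ∃ v : U, (v : V) = (a : F) ^ 2 • x - w G := ⟨⟨_, h1⟩, rfl⟩
    have hxv : (a : F) ^ 2 • x = w G + v := by
      rw [hv]
      abel
    have h3 : P.sing ((a : F) ^ 2 • x) := P.sing_smul _ _ hx
    have h5 : G.rep v * (1 + G.rep v) = 0 := by
      rw [h.sg, hxv, h.add, map_add, map_add, hU2 _ v.2 _ v.2, (h.sg _).1 (hw1 _), h.sym (w G) v,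
        hw2] at h3
      linear_combination h3
    have ha0 : (a : F) ^ 2 ≠ 0 := pow_ne_zero 2 a.ne_zero
    have huniq : ∀ b b' : Bool, x ∈ nb (b, G) → x ∈ nb (b', G) → b = b' := by
      intro b b' hb hb'
      obtain ⟨u, hu, c, hc⟩ := (hmem _ x).1 hb
      obtain ⟨u', hu', c', hc'⟩ := (hmem _ x).1 hb'
      change G.rep u = 0 at hu
      change G.rep u' = 0 at hu'
      have e1 : P.f x (e G) = c ^ 2 := by
        rw [hc, h.add, h.smul, hU2 _ u.2 _ (e G).2, hY2]
        change _ + c ^ 2 * G.rep (e G) = _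
        rw [he]
        ring
      have e2 : P.f x (e G) = c' ^ 2 := by
        rw [hc', h.add, h.smul, hU2 _ u'.2 _ (e G).2, hY2]
        change _ + c' ^ 2 * G.rep (e G) = _
        rw [he]
        ring
      have e3 : c = c' := by
        have e4 : (c ^ 2) ^ 2 = (c' ^ 2) ^ 2 := by rw [← e1, ← e2]
        rw [← pow_mul, ← pow_mul] at e4
        have e5 := h.c4 c
        have e6 := h.c4 c'
        change c ^ 4 = c' ^ 4 at e4
        rw [← e5, ← e6, e4]
      have hc0 : c ≠ 0 := by
        intro h0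
        apply hxU
        rw [hc, h0, zero_smul, add_zero]
        exact u.2
      have e7 : (u : V) - u' = (c * ((if b' = true then (1 : F) else 0) -
          (if b = true then (1 : F) else 0))) • (e G : V) := by
        rw [hY] at hc hc'
        rw [← e3] at hc'
        have e8 := hc.symm.trans hc'
        simp only [smul_add] at e8
        rw [mul_sub, sub_smul, mul_smul, mul_smul]
        have e9 : (u : V) - u' = (u + (c • w G + c • (if b = true then (1 : F) else 0) • (e G : V))) -
          c • w G - c • (if b = true then (1 : F) else 0) • (e G : V) - u' := by abel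
        rw [e9, e8]
        abel
      have e10 : u - u' = (c * ((if b' = true then (1 : F) else 0) -
          (if b = true then (1 : F) else 0))) • e G := Subtype.ext e7
      have e11 := congrArg G.rep e10
      rw [map_sub, hu, hu', map_smul, he, sub_self, smul_eq_mul, mul_one] at e11
      have e12 := (mul_eq_zero.1 e11.symm).resolve_left hc0
      cases b <;> cases b' <;> simp at e12 ⊢
    have hex : ∃ b, x ∈ nb (b, G) := by
      rcases mul_eq_zero.1 h5 with h6 | h6
      · refine ⟨false, ?_⟩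
        rw [← Submodule.smul_mem_iff _ ha0, hmem]
        refine ⟨v, h6, 1, ?_⟩
        rw [hxv, hY]
        simp only [one_smul, Bool.false_eq_true, if_false, zero_smul, add_zero]
        abel
      · refine ⟨true, ?_⟩
        rw [← Submodule.smul_mem_iff _ ha0, hmem]
        refine ⟨v - e G, ?_, 1, ?_⟩
        · change G.rep _ = 0
          rw [map_sub, he]
          have e3 := h.two (1 : F)
          linear_combination h6 - e3
        · rw [hxv, hY]
          simp only [one_smul, if_true, Submodule.coe_sub]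
          abel
    obtain ⟨b, hb⟩ := hex
    refine ⟨(b, G), hb, ?_⟩
    rintro ⟨b', G'⟩ hb'
    have hGG : G' = G := by
      obtain ⟨c, hc0, hc⟩ := hfx _ x hb' hxU
      rw [hG, ← G'.mk_rep, Projectivization.mk_eq_mk_iff']
      refine ⟨c⁻¹, ?_⟩
      ext u
      rw [LinearMap.smul_apply, smul_eq_mul]
      change c⁻¹ * P.f x u = _
      rw [hc, ← mul_assoc, inv_mul_cancel₀ hc0, one_mul]
    subst hGG
    rw [huniq b' b hb' hb]
  · intro p x hx hxU u
    obtain ⟨c, hc0, hc⟩ := hfx p x hx hxU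
    rw [hc, mul_eq_zero]
    exact or_iff_right hc0

end

theorem hHNB (h1 : StHF) : StHNB := by
  intro F V _ _ _ _ φ r hs U hU
  obtain ⟨a1, a2, a3, a4, a5, a6, a7, a8⟩ := h1 φ hs.kind hs.card
  have h : HP φ.toPolar := ⟨a1, a2, a3, a4, a5, a6, a7, a8⟩
  exact nb_of h hs.dim hs.gen hU

end Pool.Agent.Helper72.U4
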